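import Mathlib
import Pool.Agent.Lib.MP_46e774_pr.Defs
import Pool.Agent.Lib.MP_46e774_pr.Prob

set_option autoImplicit false

namespace Pool.Agent.Results.MP_46e774_pr.LimitValue

open MeasureTheory Filter Topology Pool.Agent.Lib.MP_46e774_pr

/-- For every `k ≥ 1`, the expected `k`-width of the poset of a sequence of `n` independent random
intervals, divided by `n`, converges to `1 / (k + 1)`, a positive number. (The `k`-width is an
integrable function of the random sequence, so that its expectation is a genuine integral.) -/
theorem result :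
    ∀ k : ℕ, 1 ≤ k →
      (∀ n : ℕ, Integrable
        (fun ω : Fin n → ℝ × ℝ => (kWidth k (seqPrec fun i => toInterval (ω i)) : ℝ))
        (seqLaw n)) ∧
      Tendsto (fun n : ℕ =>
        (∫ ω : Fin n → ℝ × ℝ, (kWidth k (seqPrec fun i => toInterval (ω i)) : ℝ) ∂(seqLaw n)) / n)
        atTop (𝓝 (1 / ((k : ℝ) + 1))) ∧
      0 < 1 / ((k : ℝ) + 1) := by
  intro k _
  exact ⟨fun n => integrable_randWidth k, tendsto_width k, by positivity⟩

end Pool.Agent.Results.MP_46e774_pr.LimitValue
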